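import Pool.Graph.R_seed8.R33.SIG

/-!
# MP_d14146_co: SIG-metrics in `(ℤ ^ m, ℓ₁)` with `m = |E| - ⌊(n - 1) / 2⌋`

Every finite connected simple graph `G` with `n ≥ 2` vertices has a SIG-metric which is realised by
points of `ℤ ^ m` with the `ℓ₁`-distance, `m = |E(G)| - ⌊(n - 1) / 2⌋`. For a finite graph without
isolated vertices the largest of these numbers for its components suffices (and isolated vertices
exclude all SIG-metrics). This dimension is the least possible one for all stars: if a SIG-metric of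
a graph is realised in `(ℝ ^ m, ℓ₁)`, then at most `2 m` vertices of degree one have the same
neighbour.

The metric is the sum of cut semi-metrics found in the earlier runs (`Pool.Graph.R_seed8.R33.SIG`):
the vertices are ordered so that each of them except the root has an earlier neighbour, its parent
is its earliest neighbour, `D j` is the set of the descendants of `j`, and the cuts are `D j` (for
`j` not the root) and `D j ∪ D k` (for the edges `j k` outside the tree). There are `|E|` such cuts.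
Any two of the sets `D j` are nested or disjoint, so that the cut semi-metrics of two of them can be
put on one coordinate. The components of a graph are put far apart in the direction of the first
coordinate.
-/

set_option autoImplicit false

namespace Pool.Agent.Results.MP_d14146_co.DimensionBound

open Pool.Agent.R33.SIG Finset

/-- A metric on `V`. -/
structure IsMetric {V : Type} (d : V → V → ℝ) : Prop where
  nonneg : ∀ i j, 0 ≤ d i j
  eq_zero_iff : ∀ i j, d i j = 0 ↔ i = j
  symm : ∀ i j, d i j = d j i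
  triangle : ∀ i j k, d i k ≤ d i j + d j k

/-- The radius of influence of the vertex `i`: the smallest distance from `i` to another vertex. -/
noncomputable def radius {V : Type} (d : V → V → ℝ) (i : V) : ℝ :=
  ⨅ j : {j : V // j ≠ i}, d i j.1

/-- `d` is a SIG-metric for the graph `G`. -/
structure IsSIGMetric {V : Type} (G : SimpleGraph V) (d : V → V → ℝ) : Prop where
  metric : IsMetric d
  adj : ∀ i j, G.Adj i j → d i j < radius d i + radius d j
  nonadj : ∀ i j, i ≠ j → ¬ G.Adj i j → radius d i + radius d j ≤ d i j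

/-- The `ℓ₁`-distance of the points `X i` and `X j` of `ℝ ^ m`. -/
noncomputable def l1 {V : Type} {m : ℕ} (X : V → Fin m → ℝ) (i j : V) : ℝ :=
  ∑ k, |X i k - X j k|

section library

variable {V : Type} [Fintype V] {G : SimpleGraph V} (O : Order G)

theorem radius_le (d : V → V → ℝ) {i j : V} (h : j ≠ i) : radius d i ≤ d i j :=
  ciInf_le (Set.finite_range fun j : {j : V // j ≠ i} => d i j.1).bddBelow ⟨j, h⟩

theorem le_radius (hV : 2 ≤ Fintype.card V) (d : V → V → ℝ) {i : V} {r : ℝ}
    (h : ∀ j, j ≠ i → r ≤ d i j) : r ≤ radius d i := by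
  haveI : Nontrivial V := Fintype.one_lt_card_iff_nontrivial.1 (by omega)
  obtain ⟨j, hj⟩ := exists_ne i
  haveI : Nonempty {j : V // j ≠ i} := ⟨⟨j, hj⟩⟩
  exact le_ciInf fun j => h j.1 j.2

theorem radius_eq (hV : 2 ≤ Fintype.card V) {v : V} (hv : v ≠ O.root) :
    radius O.dd v = O.dd v (O.p v) := by
  apply le_antisymm
  · apply radius_le
    intro h
    have := O.p_lt v hv
    rw [h] at this
    exact lt_irrefl _ this
  · exact le_radius hV _ fun j hj => O.rho_le_any hv hj

theorem dd_pos {i j : V} (h : i ≠ j) : 0 < O.dd i j := by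
  have key : ∀ a b : V, O.rk a < O.rk b → 0 < O.dd b a := fun a b hab => by
    have h1 := O.rho_le hab
    have h2 := O.two_w_le (O.ne_root_of_lt hab)
    have h3 := O.w_pos b
    linarith
  rcases lt_trichotomy (O.rk i) (O.rk j) with h1 | h1 | h1
  · rw [O.dd_symm]; exact key _ _ h1
  · exact absurd (O.inj h1) h
  · exact key _ _ h1

theorem radius_pos (hV : 2 ≤ Fintype.card V) (v : V) : 0 < radius O.dd v := by
  haveI : Nontrivial V := Fintype.one_lt_card_iff_nontrivial.1 (by omega)
  obtain ⟨j, hj⟩ := exists_ne v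
  haveI : Nonempty {j : V // j ≠ v} := ⟨⟨j, hj⟩⟩
  obtain ⟨k, hk⟩ := exists_eq_ciInf_of_finite (f := fun j : {j : V // j ≠ v} => O.dd v j.1)
  unfold radius
  rw [← hk]
  exact dd_pos O (Ne.symm k.2)

theorem metric : IsMetric O.dd where
  nonneg := O.dd_nonneg
  eq_zero_iff i j := by
    constructor
    · intro h
      by_contra hne
      exact absurd h (dd_pos O hne).ne'
    · rintro rfl
      simp [Order.dd]
  symm := O.dd_symm
  triangle i j k := O.dd_tri i j k

theorem sig (hV : 2 ≤ Fintype.card V) : IsSIGMetric G O.dd where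
  metric := metric O
  adj := by
    have key : ∀ u s : V, O.rk u < O.rk s → G.Adj u s →
        O.dd s u < radius O.dd s + radius O.dd u := by
      intro u s h ha
      have hs := O.ne_root_of_lt h
      rw [radius_eq O hV hs]
      by_cases hup : u = O.p s
      · have := radius_pos O hV u
        rw [← hup]
        linarith
      · obtain ⟨h1, h2⟩ := O.adj_lt h ha hup
        rw [radius_eq O hV h1]
        exact h2
    intro i j hij
    rcases lt_trichotomy (O.rk i) (O.rk j) with h1 | h1 | h1
    · have := key i j h1 hij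
      rw [O.dd_symm]; linarith
    · exact absurd (O.inj h1) hij.ne
    · exact key j i h1 hij.symm
  nonadj := by
    have key : ∀ u s : V, O.rk u < O.rk s → ¬ G.Adj u s →
        radius O.dd s + radius O.dd u ≤ O.dd s u := by
      intro u s h ha
      rw [radius_eq O hV (O.ne_root_of_lt h)]
      exact O.nonadj_ge h ha _ fun v hv => radius_le _ hv
    intro i j hij hna
    rcases lt_trichotomy (O.rk i) (O.rk j) with h1 | h1 | h1
    · have := key i j h1 hna
      rw [O.dd_symm]; linarith
    · exact absurd (O.inj h1) hij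
    · exact key j i h1 fun h2 => hna h2.symm

end library

section coordinates

open Classical

variable {V : Type} [Fintype V] {G : SimpleGraph V} (O : Order G)

/-- every vertex is a descendant of the root -/
theorem D_root (v : V) : O.D O.root v := by
  induction h : O.rk v using Nat.strong_induction_on generalizing v with
  | _ r ih =>
    by_cases hv : v = O.root
    · rw [hv]; exact O.D_refl _
    · exact O.D_up (ih (O.rk (O.p v)) (h ▸ O.p_lt v hv) (O.p v) rfl)

/-- the number of the cuts equal to `D j` -/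
noncomputable def c (j : V) : ℕ := (univ.filter fun k => ¬ O.A j k).card

/-- the indicator function of `D j` -/
noncomputable def ind (j v : V) : ℝ := if O.D j v then 1 else 0

/-- the part of the metric given by the cuts equal to `D j` -/
noncomputable def g (j u v : V) : ℝ := (c O j : ℝ) * O.w j * |ind O j u - ind O j v|

theorem g_root (u v : V) : g O O.root u v = 0 := by
  unfold g ind
  rw [if_pos (D_root O u), if_pos (D_root O v)]
  simp

theorem dd_eq (u v : V) : O.dd u v = ∑ j ∈ univ.filter (fun j => j ≠ O.root), g O j u v +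
    ∑ x ∈ (univ : Finset (V × V)).filter (fun x => O.A x.1 x.2),
      O.w x.1 * |O.f x.1 x.2 u - O.f x.1 x.2 v| := by
  have h1 : ∀ j, ∑ k, O.w j * |O.f j k u - O.f j k v| =
      ∑ k, (if O.A j k then O.w j * |O.f j k u - O.f j k v| else 0) + g O j u v := by
    intro j
    have h2 : ∀ k, O.w j * |O.f j k u - O.f j k v| =
        (if O.A j k then O.w j * |O.f j k u - O.f j k v| else 0) +
        (if ¬ O.A j k then O.w j * |ind O j u - ind O j v| else 0) := by
      intro k
      by_cases hk : O.A j k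
      · rw [if_pos hk, if_neg (not_not.2 hk), add_zero]
      · rw [if_neg hk, if_pos hk, zero_add]
        have h3 : ∀ x, O.f j k x = ind O j x := by
          intro x
          unfold Order.f Order.S ind
          simp [hk]
        rw [h3, h3]
    rw [sum_congr rfl fun k _ => h2 k, sum_add_distrib]
    congr 1
    rw [← sum_filter, sum_const, nsmul_eq_mul]
    unfold g c
    ring
  unfold Order.dd
  rw [sum_congr rfl fun j _ => h1 j, sum_add_distrib, add_comm]
  congr 1
  · rw [← sum_filter_add_sum_filter_not univ (fun j => j ≠ O.root)]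
    have h4 : (univ.filter fun j : V => ¬ j ≠ O.root) = {O.root} := by
      ext j; simp
    rw [h4, sum_singleton, g_root, add_zero]
  · rw [sum_filter, Fintype.sum_prod_type]

/-- Any two of the sets `D j` are nested or disjoint. -/
theorem laminar (i j : V) : (∀ v, O.D i v → O.D j v) ∨ (∀ v, O.D j v → O.D i v) ∨
    (∀ v, O.D i v → ¬ O.D j v) := by
  by_cases h : ∃ v, O.D i v ∧ O.D j v
  · obtain ⟨v, ⟨a, ha⟩, ⟨b, hb⟩⟩ := h
    have tr : ∀ x y z : V, O.D x y → O.D y z → O.D x z := by
      rintro x y z ⟨a, ha⟩ ⟨b, hb⟩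
      exact ⟨a + b, by rw [Function.iterate_add_apply, hb, ha]⟩
    rcases le_total a b with hab | hab
    · -- j is an ancestor of i
      obtain ⟨t, rfl⟩ := Nat.exists_eq_add_of_le hab
      left
      intro x hx
      refine tr j i x ⟨t, ?_⟩ hx
      rw [← ha, ← Function.iterate_add_apply, Nat.add_comm t a]
      exact hb
    · obtain ⟨t, rfl⟩ := Nat.exists_eq_add_of_le hab
      right; left
      intro x hx
      refine tr i j x ⟨t, ?_⟩ hx
      rw [← hb, ← Function.iterate_add_apply, Nat.add_comm t b]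
      exact ha
  · push Not at h
    exact Or.inr (Or.inr h)

/-- Two cut semi-metrics on one coordinate. -/
theorem pair (i j : V) (a b : ℕ) : ∃ φ : V → ℤ, ∀ u v, |(φ u : ℝ) - φ v| =
    a * |ind O i u - ind O i v| + b * |ind O j u - ind O j v| := by
  have ha : (0 : ℝ) ≤ a := Nat.cast_nonneg a
  have hb : (0 : ℝ) ≤ b := Nat.cast_nonneg b
  have hnest : ∀ i j : V, ∀ a b : ℕ, (∀ v, O.D i v → O.D j v) → ∃ φ : V → ℤ, ∀ u v,
      |(φ u : ℝ) - φ v| = a * |ind O i u - ind O i v| + b * |ind O j u - ind O j v| := by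
    intro i j a b h
    have ha : (0 : ℝ) ≤ a := Nat.cast_nonneg a
    have hb : (0 : ℝ) ≤ b := Nat.cast_nonneg b
    refine ⟨fun v => (if O.D i v then (a : ℤ) else 0) + (if O.D j v then (b : ℤ) else 0), ?_⟩
    intro u v
    unfold ind
    by_cases h1 : O.D i u <;> by_cases h2 : O.D i v <;> by_cases h3 : O.D j u <;>
      by_cases h4 : O.D j v <;>
      first
        | exact absurd (h u h1) h3
        | exact absurd (h v h2) h4
        | (simp only [h1, h2, h3, h4, if_true, if_false]
           push_cast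
           first
             | (rw [abs_of_nonneg (by linarith)]; norm_num)
             | (rw [abs_of_nonpos (by linarith)]; norm_num; try ring))
  rcases laminar O i j with h | h | h
  · exact hnest i j a b h
  · obtain ⟨φ, hφ⟩ := hnest j i b a h
    exact ⟨φ, fun u v => by rw [hφ u v]; ring⟩
  · refine ⟨fun v => (if O.D i v then (a : ℤ) else 0) - (if O.D j v then (b : ℤ) else 0), ?_⟩
    intro u v
    unfold ind
    by_cases h1 : O.D i u <;> by_cases h2 : O.D i v <;> by_cases h3 : O.D j u <;>
      by_cases h4 : O.D j v <;>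
      first
        | exact absurd h3 (h u h1)
        | exact absurd h4 (h v h2)
        | (simp only [h1, h2, h3, h4, if_true, if_false]
           push_cast
           first
             | (rw [abs_of_nonneg (by linarith)]; norm_num; try ring)
             | (rw [abs_of_nonpos (by linarith)]; norm_num; try ring))

/-- The weights are natural numbers. -/
theorem w_nat (j : V) : O.w j = (((Fintype.card V + 1) ^ O.rk j : ℕ) : ℝ) := by
  unfold Order.w
  push_cast
  ring

/-- Two of the sets `D j` are treated by one coordinate. -/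
theorem tree_part (n : ℕ) : ∀ R : Finset V, R.card ≤ 2 * n → ∃ Φ : Fin n → V → ℤ, ∀ u v,
    ∑ t, |(Φ t u : ℝ) - Φ t v| = ∑ j ∈ R, g O j u v := by
  have hg : ∀ j u v, g O j u v =
      ((c O j * (Fintype.card V + 1) ^ O.rk j : ℕ) : ℝ) * |ind O j u - ind O j v| := by
    intro j u v
    unfold g
    rw [w_nat O j]
    push_cast
    ring
  induction n with
  | zero =>
    intro R hR
    have h0 : R = ∅ := by
      rw [← Finset.card_eq_zero]
      omega
    subst h0
    exact ⟨fun t => t.elim0, fun u v => by simp⟩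
  | succ n ih =>
    intro R hR
    rcases R.eq_empty_or_nonempty with h0 | ⟨i, hi⟩
    · subst h0
      obtain ⟨Φ, hΦ⟩ := ih ∅ (by simp)
      refine ⟨Fin.cons (fun _ => 0) Φ, fun u v => ?_⟩
      rw [Fin.sum_univ_succ]
      simp only [Fin.cons_zero, Fin.cons_succ, hΦ]
      simp
    · have hc1 : (R.erase i).card = R.card - 1 := Finset.card_erase_of_mem hi
      rcases (R.erase i).eq_empty_or_nonempty with h0 | ⟨j, hj⟩
      · obtain ⟨Φ, hΦ⟩ := ih ∅ (by simp)
        obtain ⟨φ, hφ⟩ := pair O i i (c O i * (Fintype.card V + 1) ^ O.rk i) 0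
        refine ⟨Fin.cons φ Φ, fun u v => ?_⟩
        rw [Fin.sum_univ_succ]
        simp only [Fin.cons_zero, Fin.cons_succ, hΦ]
        rw [hφ, ← Finset.add_sum_erase R _ hi, h0, hg]
        simp
      · obtain ⟨Φ, hΦ⟩ := ih ((R.erase i).erase j) (by
          rw [Finset.card_erase_of_mem hj, hc1]
          omega)
        obtain ⟨φ, hφ⟩ := pair O i j (c O i * (Fintype.card V + 1) ^ O.rk i)
          (c O j * (Fintype.card V + 1) ^ O.rk j)
        refine ⟨Fin.cons φ Φ, fun u v => ?_⟩
        rw [Fin.sum_univ_succ]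
        simp only [Fin.cons_zero, Fin.cons_succ, hΦ]
        rw [hφ, ← Finset.add_sum_erase R _ hi, ← Finset.add_sum_erase (R.erase i) _ hj,
          ← hg, ← hg, add_assoc]

/-- The edges outside the tree. -/
noncomputable def outer : Finset (V × V) := univ.filter (fun x => O.A x.1 x.2)

theorem outer_one (x : V × V) : ∃ φ : V → ℤ, ∀ u v,
    |(φ u : ℝ) - φ v| = O.w x.1 * |O.f x.1 x.2 u - O.f x.1 x.2 v| := by
  refine ⟨fun v => if O.S x.1 x.2 v then (((Fintype.card V + 1) ^ O.rk x.1 : ℕ) : ℤ) else 0,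
    fun u v => ?_⟩
  rw [w_nat O x.1]
  generalize (Fintype.card V + 1) ^ O.rk x.1 = W
  unfold Order.f
  by_cases h1 : O.S x.1 x.2 u <;> by_cases h2 : O.S x.1 x.2 v <;> simp [h1, h2]

theorem outer_part : ∃ Ψ : Fin (outer O).card → V → ℤ, ∀ u v,
    ∑ t, |(Ψ t u : ℝ) - Ψ t v| =
      ∑ x ∈ outer O, O.w x.1 * |O.f x.1 x.2 u - O.f x.1 x.2 v| := by
  choose φ hφ using outer_one O
  refine ⟨fun t => φ ((outer O).equivFin.symm t).1, fun u v => ?_⟩
  rw [← Finset.sum_coe_sort (outer O), ← (outer O).equivFin.symm.sum_comp]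
  exact sum_congr rfl fun t _ => hφ _ u v

/-- The number of the cuts is the number of the edges. -/
theorem card_edges : G.edgeSet.ncard = (Fintype.card V - 1) + (outer O).card := by
  set R : Finset V := univ.filter (fun j => j ≠ O.root) with hR
  have hRc : R.card = Fintype.card V - 1 := by
    have h1 : R = univ.erase O.root := by
      ext j
      simp [hR]
    rw [h1, Finset.card_erase_of_mem (mem_univ _), Finset.card_univ]
  set P : Finset (V × V) := R.image (fun b => (O.p b, b)) with hP
  have hPc : P.card = R.card := by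
    apply Finset.card_image_of_injective
    intro a b hab
    exact (Prod.ext_iff.1 hab).2
  have hdisj : Disjoint P (outer O) := by
    rw [Finset.disjoint_left]
    intro x hx hx2
    obtain ⟨b, -, rfl⟩ := mem_image.1 hx
    have h1 := (mem_filter.1 hx2).2
    exact lt_irrefl _ h1.2.1
  have hrk : ∀ x ∈ P ∪ outer O, O.rk x.1 < O.rk x.2 := by
    intro x hx
    rcases mem_union.1 hx with hx | hx
    · obtain ⟨b, hb, rfl⟩ := mem_image.1 hx
      exact O.p_lt b (mem_filter.1 hb).2
    · exact (mem_filter.1 hx).2.2.2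
  have himg : G.edgeSet = ↑((P ∪ outer O).image (fun x => s(x.1, x.2))) := by
    ext e
    refine Sym2.ind (fun a b => ?_) e
    rw [SimpleGraph.mem_edgeSet, Finset.mem_coe, mem_image]
    constructor
    · have key : ∀ a b : V, G.Adj a b → O.rk a < O.rk b →
          ∃ x ∈ P ∪ outer O, s(x.1, x.2) = s(a, b) := by
        intro a b hab hlt
        have hb := O.ne_root_of_lt hlt
        refine ⟨(a, b), ?_, rfl⟩
        rcases eq_or_lt_of_le (O.p_min b a hb hab.symm) with h1 | h1
        · have h2 : O.p b = a := O.inj h1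
          exact mem_union_left _ (mem_image.2 ⟨b, mem_filter.2 ⟨mem_univ _, hb⟩, by rw [h2]⟩)
        · exact mem_union_right _ (mem_filter.2 ⟨mem_univ _, hab, h1, hlt⟩)
      intro hab
      rcases lt_trichotomy (O.rk a) (O.rk b) with h1 | h1 | h1
      · exact key a b hab h1
      · exact absurd (O.inj h1) hab.ne
      · obtain ⟨x, hx, hx2⟩ := key b a hab.symm h1
        exact ⟨x, hx, hx2.trans Sym2.eq_swap⟩
    · rintro ⟨x, hx, hx2⟩
      have hadj : G.Adj x.1 x.2 := by
        rcases mem_union.1 hx with hx | hx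
        · obtain ⟨b, hb, rfl⟩ := mem_image.1 hx
          exact (O.p_adj b (mem_filter.1 hb).2).symm
        · exact (mem_filter.1 hx).2.1
      rw [← SimpleGraph.mem_edgeSet] at hadj ⊢
      rw [hx2] at hadj
      exact hadj
  rw [himg, Set.ncard_coe_finset, Finset.card_image_of_injOn, Finset.card_union_of_disjoint hdisj,
    hPc, hRc]
  intro x hx y hy hxy
  have h1 := hrk x hx
  have h2 := hrk y hy
  have hxy' : s(x.1, x.2) = s(y.1, y.2) := hxy
  rw [Sym2.eq_iff] at hxy'
  rcases hxy' with ⟨h3, h4⟩ | ⟨h3, h4⟩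
  · exact Prod.ext h3 h4
  · rw [h3, h4] at h1
    exact absurd h1 (by omega)

end coordinates

/-! ### The lower bound -/

theorem radius_attained {V : Type} [Finite V] (d : V → V → ℝ) {i j : V} (h : j ≠ i) :
    ∃ k, k ≠ i ∧ radius d i = d i k := by
  haveI : Nonempty {j : V // j ≠ i} := ⟨⟨j, h⟩⟩
  obtain ⟨k, hk⟩ := exists_eq_ciInf_of_finite (f := fun j : {j : V // j ≠ i} => d i j.1)
  exact ⟨k.1, k.2, hk.symm⟩

theorem radius_pos' {V : Type} [Finite V] {d : V → V → ℝ} (hd : IsMetric d) {i j : V}
    (h : j ≠ i) : 0 < radius d i := by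
  obtain ⟨k, hk, h1⟩ := radius_attained d h
  rw [h1]
  exact lt_of_le_of_ne (hd.nonneg i k) fun h2 => hk ((hd.eq_zero_iff i k).1 h2.symm).symm

theorem pendant {V : Type} [Finite V] (G : SimpleGraph V) (q : V) (L : Finset V)
    (hL : ∀ s ∈ L, ∀ j, G.Adj s j ↔ j = q) {m : ℕ} (X : V → Fin m → ℝ)
    (h : IsSIGMetric G (l1 X)) : L.card ≤ 2 * m := by
  classical
  have hq : ∀ s ∈ L, s ≠ q := by
    rintro s hs rfl
    exact G.irrefl ((hL s hs s).2 rfl)
  have hr : ∀ s ∈ L, radius (l1 X) s = l1 X s q := by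
    intro s hs
    obtain ⟨k, hk, h1⟩ := radius_attained (l1 X) (hq s hs).symm
    by_cases hadj : G.Adj s k
    · rw [h1, (hL s hs k).1 hadj]
    · exfalso
      have h2 := h.nonadj s k hk.symm hadj
      have h3 := radius_pos' h.metric (i := k) (j := s) hk.symm
      linarith
  have hbet : ∀ s ∈ L, ∀ t ∈ L, s ≠ t → ∀ k, ¬ (0 < (X s k - X q k) * (X t k - X q k)) := by
    intro s hs t ht hst k hpos
    have hna : ¬ G.Adj s t := fun hadj => hq t ht ((hL s hs t).1 hadj)
    have h1 := h.nonadj s t hst hna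
    rw [hr s hs, hr t ht] at h1
    have h2 : l1 X s t < l1 X s q + l1 X t q := by
      unfold l1
      rw [← sum_add_distrib]
      refine sum_lt_sum (fun k _ => ?_) ⟨k, mem_univ k, ?_⟩
      · have := abs_sub_le (X s k) (X q k) (X t k)
        rw [abs_sub_comm (X q k) (X t k)] at this
        exact this
      · rcases (mul_pos_iff.1 hpos) with ⟨h3, h4⟩ | ⟨h3, h4⟩
        · rw [abs_of_pos h3, abs_of_pos h4, abs_lt]
          constructor <;> linarith
        · rw [abs_of_neg h3, abs_of_neg h4, abs_lt]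
          constructor <;> linarith
    linarith
  have hex : ∀ s : {s // s ∈ L}, ∃ k : Fin m × Bool, X s.1 k.1 ≠ X q k.1 ∧
      (k.2 = true ↔ X q k.1 < X s.1 k.1) := by
    intro s
    have h1 : ∃ k, X s.1 k ≠ X q k := by
      by_contra hcon
      push Not at hcon
      apply hq s.1 s.2
      rw [← h.metric.eq_zero_iff]
      unfold l1
      exact sum_eq_zero fun k _ => by rw [hcon k, sub_self, abs_zero]
    obtain ⟨k, hk⟩ := h1
    exact ⟨(k, decide (X q k < X s.1 k)), hk, by simp⟩
  choose κ hκ using hex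
  have h1 : Function.Injective κ := by
    intro s t hst
    by_contra hne
    have h2 := hκ s
    have h3 := hκ t
    rw [← hst] at h3
    refine hbet s.1 s.2 t.1 t.2 (fun h4 => hne (Subtype.ext h4)) (κ s).1 ?_
    by_cases h4 : X q (κ s).1 < X s.1 (κ s).1
    · have h5 := h3.2.1 (h2.2.2 h4)
      exact mul_pos (by linarith) (by linarith)
    · have h5 : ¬ X q (κ s).1 < X t.1 (κ s).1 := fun h6 => h4 (h2.2.1 (h3.2.2 h6))
      have h6 := lt_of_le_of_ne (not_lt.1 h4) h2.1
      have h7 := lt_of_le_of_ne (not_lt.1 h5) h3.1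
      exact mul_pos_of_neg_of_neg (by linarith) (by linarith)
  have h2 := Fintype.card_le_of_injective κ h1
  simpa [mul_comm] using h2


/-! ### Several components -/

theorem l1_comm {V : Type} {m : ℕ} (X : V → Fin m → ℝ) (u v : V) : l1 X u v = l1 X v u :=
  sum_congr rfl fun k _ => abs_sub_comm _ _

theorem l1_metric {V : Type} {m : ℕ} (X : V → Fin m → ℝ)
    (h : ∀ u v, u ≠ v → 0 < l1 X u v) : IsMetric (l1 X) where
  nonneg u v := sum_nonneg fun k _ => abs_nonneg _
  eq_zero_iff u v := by
    constructor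
    · intro h1
      by_contra h2
      exact (h u v h2).ne' h1
    · rintro rfl
      simp [l1]
  symm := l1_comm X
  triangle u v w := by
    unfold l1
    rw [← sum_add_distrib]
    exact sum_le_sum fun k _ => abs_sub_le _ _ _

theorem radius_le' {V : Type} [Finite V] (d : V → V → ℝ) {i j : V} (h : j ≠ i) :
    radius d i ≤ d i j :=
  ciInf_le (Set.finite_range fun j : {j : V // j ≠ i} => d i j.1).bddBelow ⟨j, h⟩

/-- The components of a graph can be put far apart on parallel copies of the same space. -/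
theorem union_sig {V κ : Type} [Finite V] [Finite κ] (G : SimpleGraph V) (c : V → κ)
    (hc : ∀ u v, G.Adj u v → c u = c v) (hn : ∀ v, ∃ w, w ≠ v ∧ c w = c v) (m : ℕ) (hm : 1 ≤ m)
    (X : ∀ a, {v // c v = a} → Fin m → ℤ)
    (hX : ∀ a, IsSIGMetric (G.comap (Subtype.val : {v // c v = a} → V))
      (l1 fun v k => (X a v k : ℝ))) :
    ∃ Z : V → Fin m → ℤ, IsSIGMetric G (l1 fun v k => (Z v k : ℝ)) := by
  classical
  set k0 : Fin m := ⟨0, hm⟩ with hk0
  set r : V → ℝ := fun v => radius (l1 fun w k => (X (c v) w k : ℝ)) ⟨v, rfl⟩ with hr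
  obtain ⟨n, ⟨e⟩⟩ := Finite.exists_equiv_fin κ
  obtain ⟨M, hM⟩ := (Set.finite_range fun v => r v + |((X (c v) ⟨v, rfl⟩ k0 : ℤ) : ℝ)|).bddAbove
  obtain ⟨L, hL⟩ := exists_nat_ge (2 * M)
  have hM' : ∀ v, r v + |((X (c v) ⟨v, rfl⟩ k0 : ℤ) : ℝ)| ≤ M := fun v => hM ⟨v, rfl⟩
  refine ⟨fun v k => X (c v) ⟨v, rfl⟩ k + (if k = k0 then (L : ℤ) * ((e (c v)).1 : ℤ) else 0), ?_⟩
  set Z : V → Fin m → ℝ := fun v k => ((X (c v) ⟨v, rfl⟩ k +
    (if k = k0 then (L : ℤ) * ((e (c v)).1 : ℤ) else 0) : ℤ) : ℝ) with hZ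
  -- the same component
  have hsame : ∀ u v (a : κ) (hu : c u = a) (hv : c v = a),
      l1 Z u v = l1 (fun w k => (X a w k : ℝ)) ⟨u, hu⟩ ⟨v, hv⟩ := by
    intro u v a hu hv
    unfold l1
    refine sum_congr rfl fun k _ => ?_
    have hXu : X (c u) ⟨u, rfl⟩ k = X a ⟨u, hu⟩ k := by subst hu; rfl
    have hXv : X (c v) ⟨v, rfl⟩ k = X a ⟨v, hv⟩ k := by subst hv; rfl
    simp only [hZ, hXu, hXv, hu, hv]
    push_cast
    congr 1
    ring
  have hrr : ∀ v (a : κ) (hv : c v = a),
      radius (l1 fun w k => (X a w k : ℝ)) ⟨v, hv⟩ = r v := by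
    intro v a hv
    subst hv
    rfl
  have hrpos : ∀ v, 0 < r v := by
    intro v
    obtain ⟨w, hw, hw2⟩ := hn v
    exact radius_pos' (hX (c v)).metric (i := ⟨v, rfl⟩) (j := ⟨w, hw2⟩)
      (fun h => hw (congrArg Subtype.val h))
  -- different components
  have hcross : ∀ u v, c u ≠ c v → r u + r v ≤ l1 Z u v := by
    intro u v huv
    have h1 : |Z u k0 - Z v k0| ≤ l1 Z u v :=
      single_le_sum (f := fun k => |Z u k - Z v k|) (fun k _ => abs_nonneg _) (mem_univ k0)
    refine le_trans ?_ h1
    have h2 : (e (c u)).1 ≠ (e (c v)).1 := fun h => huv (e.injective (Fin.ext h))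
    have h3 : (1 : ℝ) ≤ |((e (c u)).1 : ℝ) - ((e (c v)).1 : ℝ)| := by
      rcases lt_or_gt_of_ne h2 with h | h
      · have h4 : ((e (c u)).1 : ℝ) + 1 ≤ ((e (c v)).1 : ℝ) := by exact_mod_cast h
        rw [abs_sub_comm, abs_of_nonneg (by linarith)]
        linarith
      · have h4 : ((e (c v)).1 : ℝ) + 1 ≤ ((e (c u)).1 : ℝ) := by exact_mod_cast h
        rw [abs_of_nonneg (by linarith)]
        linarith
    have hu := hM' u
    have hv := hM' v
    have hLn : (0 : ℝ) ≤ L := Nat.cast_nonneg L
    have h5 : (L : ℝ) ≤ |(L : ℝ) * (((e (c u)).1 : ℝ) - ((e (c v)).1 : ℝ))| := by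
      rw [abs_mul, abs_of_nonneg hLn]
      nlinarith
    have h6 : Z u k0 - Z v k0 = ((X (c u) ⟨u, rfl⟩ k0 : ℤ) : ℝ) - ((X (c v) ⟨v, rfl⟩ k0 : ℤ) : ℝ) +
        (L : ℝ) * (((e (c u)).1 : ℝ) - ((e (c v)).1 : ℝ)) := by
      simp only [hZ, if_true]
      push_cast
      ring
    have h7 := abs_sub_abs_le_abs_sub ((L : ℝ) * (((e (c u)).1 : ℝ) - ((e (c v)).1 : ℝ)))
      (-(((X (c u) ⟨u, rfl⟩ k0 : ℤ) : ℝ) - ((X (c v) ⟨v, rfl⟩ k0 : ℤ) : ℝ)))
    rw [abs_neg] at h7
    have h8 := abs_sub ((X (c u) ⟨u, rfl⟩ k0 : ℤ) : ℝ) ((X (c v) ⟨v, rfl⟩ k0 : ℤ) : ℝ)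
    have h9 : (L : ℝ) * (((e (c u)).1 : ℝ) - ((e (c v)).1 : ℝ)) -
        -(((X (c u) ⟨u, rfl⟩ k0 : ℤ) : ℝ) - ((X (c v) ⟨v, rfl⟩ k0 : ℤ) : ℝ)) =
        Z u k0 - Z v k0 := by
      rw [h6]; ring
    rw [h9] at h7
    linarith
  have hmet : IsMetric (l1 Z) := by
    apply l1_metric
    intro u v huv
    by_cases h : c u = c v
    · rw [hsame u v (c v) h rfl]
      refine lt_of_le_of_ne ((hX (c v)).metric.nonneg _ _) fun h1 => huv ?_
      exact congrArg Subtype.val (((hX (c v)).metric.eq_zero_iff _ _).1 h1.symm)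
    · have h1 := hcross u v h
      have h2 := hrpos u
      have h3 := hrpos v
      linarith
  have hrad : ∀ v, radius (l1 Z) v = r v := by
    intro v
    obtain ⟨w, hw, hw2⟩ := hn v
    apply le_antisymm
    · obtain ⟨k, hk, h1⟩ := radius_attained (l1 fun w k => (X (c v) w k : ℝ))
        (i := ⟨v, rfl⟩) (j := ⟨w, hw2⟩) (fun h => hw (congrArg Subtype.val h))
      have h2 : r v = l1 Z v k.1 := by
        rw [hsame v k.1 (c v) rfl k.2]
        exact h1
      rw [h2]
      exact radius_le' _ fun h => hk (Subtype.ext h)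
    · have : Nonempty {j : V // j ≠ v} := ⟨⟨w, hw⟩⟩
      refine le_ciInf fun j => ?_
      by_cases h : c j.1 = c v
      · rw [hsame v j.1 (c v) rfl h]
        exact radius_le' _ fun h1 => j.2 (congrArg Subtype.val h1)
      · have h1 := hcross v j.1 (Ne.symm h)
        have h2 := hrpos j.1
        linarith
  refine ⟨hmet, fun i j hij => ?_, fun i j hij hna => ?_⟩
  · have h := hc i j hij
    rw [hrad, hrad, hsame i j (c j) h rfl, ← hrr i (c j) h, ← hrr j (c j) rfl]
    exact (hX (c j)).adj ⟨i, h⟩ ⟨j, rfl⟩ hij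
  · rw [hrad, hrad]
    by_cases h : c i = c j
    · rw [hsame i j (c j) h rfl, ← hrr i (c j) h, ← hrr j (c j) rfl]
      exact (hX (c j)).nonadj ⟨i, h⟩ ⟨j, rfl⟩ (fun h1 => hij (congrArg Subtype.val h1)) hna
    · exact hcross i j h

/-- More coordinates do no harm. -/
theorem pad {V : Type} (G : SimpleGraph V) {m n : ℕ} (hmn : m ≤ n) (X : V → Fin m → ℤ)
    (h : IsSIGMetric G (l1 fun v k => (X v k : ℝ))) :
    ∃ Z : V → Fin n → ℤ, IsSIGMetric G (l1 fun v k => (Z v k : ℝ)) := by
  obtain ⟨t, rfl⟩ := Nat.exists_eq_add_of_le hmn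
  refine ⟨fun v => Fin.append (X v) (fun _ => 0), ?_⟩
  have h1 : (l1 fun v k => ((Fin.append (X v) (fun _ : Fin t => (0 : ℤ)) k : ℤ) : ℝ)) =
      l1 fun v k => (X v k : ℝ) := by
    funext u v
    unfold l1
    rw [Fin.sum_univ_add]
    simp
  rw [h1]
  exact h

/-- The connected case. -/
theorem connected_case (V : Type) [Fintype V] (G : SimpleGraph V) (hV : 2 ≤ Fintype.card V)
    (hG : G.Connected) : 1 ≤ G.edgeSet.ncard - (Fintype.card V - 1) / 2 ∧
      ∃ X : V → Fin (G.edgeSet.ncard - (Fintype.card V - 1) / 2) → ℤ,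
        IsSIGMetric G (l1 fun v k => (X v k : ℝ)) := by
  classical
  obtain ⟨O⟩ := exists_order hG
  set R : Finset V := univ.filter (fun j => j ≠ O.root) with hR
  have hRc : R.card = Fintype.card V - 1 := by
    have h1 : R = univ.erase O.root := by
      ext j
      simp [hR]
    rw [h1, Finset.card_erase_of_mem (mem_univ _), Finset.card_univ]
  obtain ⟨Φ, hΦ⟩ := tree_part O (Fintype.card V - 1 - (Fintype.card V - 1) / 2) R
    (by rw [hRc]; omega)
  obtain ⟨Ψ, hΨ⟩ := outer_part O
  have hm : G.edgeSet.ncard - (Fintype.card V - 1) / 2 =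
      (Fintype.card V - 1 - (Fintype.card V - 1) / 2) + (outer O).card := by
    rw [card_edges O]
    omega
  rw [hm]
  refine ⟨by omega, fun v => Fin.append (fun t => Φ t v) (fun t => Ψ t v), ?_⟩
  have hd : (l1 fun v k => ((Fin.append (fun t => Φ t v) (fun t => Ψ t v) k : ℤ) : ℝ)) =
      O.dd := by
    funext u v
    unfold l1
    rw [Fin.sum_univ_add]
    simp only [Fin.append_left, Fin.append_right]
    rw [hΦ, hΨ, dd_eq O u v]
    rfl
  rw [hd]
  exact sig O hV

/-- Graphs without isolated vertices. -/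
theorem general_case (V : Type) [Finite V] (G : SimpleGraph V) (hG : ∀ v, ∃ w, G.Adj v w)
    (m : ℕ) (hm : ∀ C : G.ConnectedComponent,
      C.toSimpleGraph.edgeSet.ncard - (Nat.card C - 1) / 2 ≤ m) :
    ∃ X : V → Fin m → ℤ, IsSIGMetric G (l1 fun v k => (X v k : ℝ)) := by
  classical
  rcases isEmpty_or_nonempty V with hE | ⟨⟨v0⟩⟩
  · exact ⟨fun v => hE.elim v, ⟨⟨fun v => hE.elim v, fun v => hE.elim v, fun v => hE.elim v,
      fun v => hE.elim v⟩, fun v => hE.elim v, fun v => hE.elim v⟩⟩
  have hcard : ∀ C : G.ConnectedComponent, 2 ≤ Nat.card C := by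
    intro C
    obtain ⟨v, hv⟩ := C.nonempty_supp
    obtain ⟨w, hw⟩ := hG v
    have hw2 : w ∈ C.supp := by
      rw [SimpleGraph.ConnectedComponent.mem_supp_iff] at hv ⊢
      rw [← hv]
      exact SimpleGraph.ConnectedComponent.sound hw.symm.reachable
    haveI : Nontrivial C := ⟨⟨⟨v, hv⟩, ⟨w, hw2⟩, fun h => hw.ne (congrArg Subtype.val h)⟩⟩
    exact Finite.one_lt_card
  have key : ∀ C : G.ConnectedComponent, 1 ≤ m ∧ ∃ X : C → Fin m → ℤ,
      IsSIGMetric C.toSimpleGraph (l1 fun v k => (X v k : ℝ)) := by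
    intro C
    haveI : Fintype C := Fintype.ofFinite C
    have h2 : 2 ≤ Fintype.card C := by
      rw [← Nat.card_eq_fintype_card]
      exact hcard C
    obtain ⟨h3, X, hX⟩ := connected_case C C.toSimpleGraph h2 C.connected_toSimpleGraph
    have h4 := hm C
    rw [Nat.card_eq_fintype_card] at h4
    exact ⟨h3.trans h4, pad _ h4 X hX⟩
  have hm1 := (key (G.connectedComponentMk v0)).1
  choose X hX using fun C => (key C).2
  exact union_sig G (fun v => G.connectedComponentMk v)
    (fun u v h => SimpleGraph.ConnectedComponent.sound h.reachable)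
    (fun v => by
      obtain ⟨w, hw⟩ := hG v
      exact ⟨w, hw.ne', SimpleGraph.ConnectedComponent.sound hw.symm.reachable⟩)
    m hm1 (fun C => X C) (fun C => hX C)

/-- A SIG-metric excludes isolated vertices. -/
theorem no_isolated {V : Type} [Finite V] (G : SimpleGraph V) (d : V → V → ℝ)
    (h : IsSIGMetric G d) {v w : V} (hvw : w ≠ v) : ∃ k, G.Adj v k := by
  obtain ⟨k, hk, h1⟩ := radius_attained d hvw
  refine ⟨k, ?_⟩
  by_contra hna
  have h2 := h.nonadj v k hk.symm hna
  have h3 := radius_pos' h.metric (i := k) (j := v) hk.symm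
  linarith

/-- **SIG-metrics in `(ℤ ^ m, ℓ₁)`.** (1) Every finite connected simple graph `G` with `n ≥ 2`
vertices has a SIG-metric which is realised by points of `ℤ ^ m` with the `ℓ₁`-distance, where
`m = |E(G)| - ⌊(n - 1) / 2⌋`; in particular it has an `ℓ₁`-embeddable SIG-metric. (2) For every
finite graph without isolated vertices the same holds if `m` is at least this number for each
connected component; and a finite graph with at least two vertices and a SIG-metric (of any kind)
has no isolated vertices. (3) If a SIG-metric of a finite graph is realised in `ℝ ^ m` with the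
`ℓ₁`-distance, then at most `2 m` vertices of degree one have the same neighbour. (4) So for the
stars the number `m` in (1) is the least possible. -/
theorem result :
    (∀ (V : Type) [Fintype V] (G : SimpleGraph V), 2 ≤ Fintype.card V → G.Connected →
      ∃ X : V → Fin (G.edgeSet.ncard - (Fintype.card V - 1) / 2) → ℤ,
        IsSIGMetric G (l1 fun v k => (X v k : ℝ))) ∧
    (∀ (V : Type) [Finite V] (G : SimpleGraph V),
      ((∀ v, ∃ w, G.Adj v w) → ∀ m : ℕ, (∀ C : G.ConnectedComponent,
        C.toSimpleGraph.edgeSet.ncard - (Nat.card C - 1) / 2 ≤ m) →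
          ∃ X : V → Fin m → ℤ, IsSIGMetric G (l1 fun v k => (X v k : ℝ))) ∧
      (∀ d, IsSIGMetric G d → 2 ≤ Nat.card V → ∀ v, ∃ w, G.Adj v w)) ∧
    (∀ (V : Type) [Finite V] (G : SimpleGraph V) (q : V) (L : Finset V),
      (∀ s ∈ L, ∀ j, G.Adj s j ↔ j = q) → ∀ (m : ℕ) (X : V → Fin m → ℝ),
        IsSIGMetric G (l1 X) → L.card ≤ 2 * m) ∧
    (∀ (V : Type) [Fintype V] (G : SimpleGraph V) (q : V),
      (∀ i j, G.Adj i j ↔ i ≠ j ∧ (i = q ∨ j = q)) → ∀ (m : ℕ) (X : V → Fin m → ℝ),
        IsSIGMetric G (l1 X) → G.edgeSet.ncard - (Fintype.card V - 1) / 2 ≤ m) := by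
  refine ⟨fun V _ G hV hG => (connected_case V G hV hG).2, fun V _ G => ⟨general_case V G, ?_⟩,
    fun V _ G q L hL m X h => pendant G q L hL X h, ?_⟩
  · intro d hd hV v
    haveI : Nontrivial V := Finite.one_lt_card_iff_nontrivial.1 hV
    obtain ⟨w, hw⟩ := exists_ne v
    exact no_isolated G d hd hw
  · intro V _ G q hstar m X h
    classical
    have hE : G.edgeSet = ↑((univ.erase q).image (fun j => s(q, j))) := by
      ext e
      refine Sym2.ind (fun a b => ?_) e
      rw [SimpleGraph.mem_edgeSet, Finset.mem_coe, mem_image, hstar]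
      constructor
      · rintro ⟨hab, rfl | rfl⟩
        · exact ⟨b, mem_erase.2 ⟨hab.symm, mem_univ _⟩, rfl⟩
        · exact ⟨a, mem_erase.2 ⟨hab, mem_univ _⟩, Sym2.eq_swap⟩
      · rintro ⟨j, hj, hj2⟩
        have hjq := (mem_erase.1 hj).1
        rw [Sym2.eq_iff] at hj2
        rcases hj2 with ⟨rfl, rfl⟩ | ⟨rfl, rfl⟩
        · exact ⟨hjq.symm, Or.inl rfl⟩
        · exact ⟨hjq, Or.inr rfl⟩
    have hc : G.edgeSet.ncard = Fintype.card V - 1 := by
      rw [hE, Set.ncard_coe_finset, Finset.card_image_of_injOn, card_erase_of_mem (mem_univ _),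
        card_univ]
      intro a ha b hb hab
      have hab' : s(q, a) = s(q, b) := hab
      rw [Sym2.eq_iff] at hab'
      rcases hab' with ⟨-, h1⟩ | ⟨h1, h2⟩
      · exact h1
      · rw [h2, h1]
    have h1 := pendant G q (univ.erase q) (fun s hs j => by
      have hs' := (mem_erase.1 hs).1
      rw [hstar]
      constructor
      · rintro ⟨-, h1 | h1⟩
        · exact absurd h1 hs'
        · exact h1
      · rintro rfl
        exact ⟨hs', Or.inr rfl⟩) X h
    rw [card_erase_of_mem (mem_univ _), card_univ] at h1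
    rw [hc]
    omega

end Pool.Agent.Results.MP_d14146_co.DimensionBound
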